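import Pool.Graph.R_pool_sql_team_seeded_1acbe0a2.Y577.EV.Core
import Pool.Graph.R_pool_sql_team_seeded_1acbe0a2.Y407.EV.Crit

set_option autoImplicit false
set_option linter.unusedSectionVars false

/-!
Homomorphism-closed graph properties (MP_257582_lc): graphs on blocks of arbitrary size, given by a
projection of the vertices to the blocks, and their relation to the types of blocks.
-/

namespace Pool.Agent.H636.HC

open Finset Pool.Agent.H98R2.Ev Pool.Agent.TH410.KV Pool.Agent.Y577.EV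
open Pool.Agent.H98R2.Nb (Inv)
open Pool.Agent.H98R2.Nb.N3 (ES toG_ES)

variable {𝓕 : Fam}

/-- the graph with the blocks `π ⁻¹ b`: complete blocks for `R b`, blocks without edges otherwise,
two different blocks are joined completely or not at all -/
def blow {V B : Type} (π : V → B) (G : SimpleGraph B) (R : B → Prop) : SimpleGraph V where
  Adj x y := G.Adj (π x) (π y) ∨ (π x = π y ∧ x ≠ y ∧ R (π x))
  symm := ⟨by
    rintro x y (h | ⟨h1, h2, h3⟩)
    · exact Or.inl h.symm
    · exact Or.inr ⟨h1.symm, h2.symm, h1 ▸ h3⟩⟩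
  loopless := ⟨by
    rintro x (h | ⟨_, h2, _⟩)
    · exact G.loopless.irrefl _ h
    · exact h2 rfl⟩

/-- the vertices in `U` can be coloured with the elements of `α` -/
def Cb (α : Type) (F : 𝓕) (U : Finset (Fin F.1.1)) : Prop :=
  ∃ col : Fin F.1.1 → α, ∀ x ∈ U, ∀ y ∈ U, F.1.2.Adj x y → col x ≠ col y

theorem Cb_of_equiv {α β : Type} (e : α ≃ β) (F : 𝓕) (U : Finset (Fin F.1.1)) :
    Cb α F U ↔ Cb β F U := by
  constructor
  · rintro ⟨col, h⟩
    exact ⟨fun x => e (col x), fun x hx y hy hxy heq => h x hx y hy hxy (e.injective heq)⟩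
  · rintro ⟨col, h⟩
    exact ⟨fun x => e.symm (col x),
      fun x hx y hy hxy heq => h x hx y hy hxy (e.symm.injective heq)⟩

theorem mem_J (q : ℕ) (F : 𝓕) (U : Finset (Fin F.1.1)) :
    U ∈ (J q (xi : TY 𝓕)).1 F ↔ Cb (ZMod q) F U := by
  constructor
  · rintro ⟨ρ, hρ⟩
    refine ⟨ρ, fun x hx y hy hxy heq => ?_⟩
    exact hρ (ρ x) x (by simp [hx]) y (by simp [hy, heq]) hxy
  · rintro ⟨ρ, hρ⟩
    refine ⟨ρ, fun i => ?_⟩
    intro x hx y hy hxy
    rw [mem_filter] at hx hy
    exact hρ x hx.1 y hy.1 hxy (hx.2.trans hy.2.symm)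

theorem mem_iter' (n : ℕ) (F : 𝓕) (U : Finset (Fin F.1.1)) :
    U ∈ ((J 2)^[n] (xi : TY 𝓕)).1 F ↔ Cb (Fin n → ZMod 2) F U := by
  rw [mem_iter]
  constructor
  · rintro ⟨ρ, hρ⟩
    refine ⟨ρ, fun x hx y hy hxy heq => ?_⟩
    exact hρ (ρ x) x (by simp [hx]) y (by simp [hy, heq]) hxy
  · rintro ⟨ρ, hρ⟩
    refine ⟨ρ, fun i => ?_⟩
    intro x hx y hy hxy
    rw [mem_filter] at hx hy
    exact hρ x hx.1 y hy.1 hxy (hx.2.trans hy.2.symm)

open Classical in
theorem bridge {V B : Type} (π : V → B) (hπ : Function.Surjective π) (G : SimpleGraph B)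
    (R : B → Prop) (τ : B → TY 𝓕)
    (h1 : ∀ b, R b → ∀ (F : 𝓕) (U : Finset (Fin F.1.1)), U ∈ (τ b).1 F ↔
      Cb {v // π v = b} F U)
    (h0 : ∀ b, ¬ R b → τ b = xi) : HH 𝓕 (blow π G R) ↔ Bad τ G := by
  constructor
  · rintro ⟨F, hF, ⟨f⟩⟩
    refine ⟨⟨F, hF⟩, fun x => π (f x), fun b => ?_, fun x y hxy hne => ?_⟩
    · by_cases hR : R b
      · rw [h1 b hR]
        obtain ⟨v₀, hv₀⟩ := hπ b
        refine ⟨fun x => if h : π (f x) = b then ⟨f x, h⟩ else ⟨v₀, hv₀⟩, ?_⟩
        intro x hx y hy hxy heq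
        simp only [mem_filter, mem_univ, true_and] at hx hy
        change (if h : π (f x) = b then (⟨f x, h⟩ : {v // π v = b}) else ⟨v₀, hv₀⟩) =
          (if h : π (f y) = b then (⟨f y, h⟩ : {v // π v = b}) else ⟨v₀, hv₀⟩) at heq
        rw [dif_pos hx, dif_pos hy] at heq
        have hfx : f x = f y := congrArg Subtype.val heq
        have h := f.map_adj hxy
        rw [hfx] at h
        exact (blow π G R).loopless.irrefl _ h
      · rw [h0 b hR]
        intro x hx y hy hxy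
        simp only [mem_filter, mem_univ, true_and] at hx hy
        rcases f.map_adj hxy with h | ⟨_, _, h⟩
        · rw [hx, hy] at h
          exact G.loopless.irrefl _ h
        · rw [hx] at h
          exact hR h
    · rcases f.map_adj hxy with h | ⟨h, _, _⟩
      · exact h
      · exact absurd h hne
  · rintro ⟨⟨F, hF⟩, κ, h2, h3⟩
    have hcol : ∀ b, ∃ col : Fin F.1 → {v // π v = b}, R b →
        ∀ x y, κ x = b → κ y = b → F.2.Adj x y → col x ≠ col y := by
      intro b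
      by_cases hR : R b
      · obtain ⟨col, hcol⟩ := (h1 b hR ⟨F, hF⟩ _).1 (h2 b)
        refine ⟨col, fun _ x y hx hy hxy hc => ?_⟩
        exact hcol x (by simp [hx]) y (by simp [hy]) hxy hc
      · obtain ⟨v₀, hv₀⟩ := hπ b
        exact ⟨fun _ => ⟨v₀, hv₀⟩, fun h => absurd h hR⟩
    choose col hcol using hcol
    refine ⟨F, hF, ⟨⟨fun x => (col (κ x) x).1, ?_⟩⟩⟩
    intro x y hxy
    have ex : π (col (κ x) x).1 = κ x := (col (κ x) x).2
    have ey : π (col (κ y) y).1 = κ y := (col (κ y) y).2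
    by_cases h : κ x = κ y
    · by_cases hR : R (κ x)
      · refine Or.inr ⟨by rw [ex, ey, h], ?_, by rw [ex]; exact hR⟩
        intro heq
        refine hcol (κ x) hR x y rfl h.symm hxy ?_
        apply Subtype.ext
        rw [heq]
        have h5 : ∀ (b b' : B), b = b' → (col b y).1 = (col b' y).1 := by
          rintro b _ rfl
          rfl
        exact h5 _ _ h.symm
      · exfalso
        have h4 := h2 (κ x)
        rw [h0 _ hR] at h4
        exact h4 x (by simp) y (by simp [h]) hxy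
    · refine Or.inl ?_
      rw [ex, ey]
      exact h3 x y hxy h

/-! ### The graphs that only depend on the blocks -/

section blocks

variable {V B : Type} [Fintype B] [DecidableEq B] (π : V → B) (d : B → ℕ)

/-- the graph of a set of pairs of blocks and of blocks -/
abbrev gB (A : Finset (EV B ⊕ {b // d b ≠ 0})) : SimpleGraph V :=
  blow π (toG A.toLeft) (fun b => ∃ h : d b ≠ 0, (⟨b, h⟩ : {b // d b ≠ 0}) ∈ A.toRight)

variable {π d}

theorem gB_le (hπ : Function.Surjective π) (h2 : ∀ b, d b ≠ 0 → ∃ x y, π x = b ∧ π y = b ∧ x ≠ y)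
    (A A' : Finset (EV B ⊕ {b // d b ≠ 0})) : gB π d A ≤ gB π d A' ↔ A ⊆ A' := by
  constructor
  · rintro h (e | ⟨b, hb⟩) hx
    · obtain ⟨e, he⟩ := e
      induction e using Sym2.ind with
      | _ i j =>
        have hij : i ≠ j := by
          rw [Sym2.mk_isDiag_iff] at he
          exact he
        obtain ⟨x, hxi⟩ := hπ i
        obtain ⟨y, hyj⟩ := hπ j
        have h1 : (gB π d A).Adj x y := by
          refine Or.inl ?_
          rw [hxi, hyj]
          exact (toG_adj15 _ _ _).2 ⟨he, Finset.mem_toLeft.2 hx⟩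
        rcases h h1 with h3 | ⟨h3, -, -⟩
        · rw [hxi, hyj] at h3
          obtain ⟨h3, h4⟩ := (toG_adj15 _ _ _).1 h3
          exact Finset.mem_toLeft.1 h4
        · rw [hxi, hyj] at h3
          exact absurd h3 hij
    · obtain ⟨x, y, hxb, hyb, hxy⟩ := h2 b hb
      have h1 : (gB π d A).Adj x y := by
        refine Or.inr ⟨hxb.trans hyb.symm, hxy, ?_⟩
        rw [hxb]
        exact ⟨hb, Finset.mem_toRight.2 hx⟩
      rcases h h1 with h3 | ⟨-, -, h3⟩
      · rw [hxb, hyb] at h3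
        exact absurd h3 ((toG A'.toLeft).loopless.irrefl b)
      · rw [hxb] at h3
        obtain ⟨h4, h5⟩ := h3
        exact Finset.mem_toRight.1 h5
  · intro h x y hxy
    rcases hxy with h1 | ⟨h1, h3, h4, h5⟩
    · exact Or.inl (toG_mono15 (Finset.toLeft_subset_toLeft h) h1)
    · exact Or.inr ⟨h1, h3, h4, Finset.toRight_subset_toRight h h5⟩

theorem blow_inv (G : SimpleGraph B) (R : B → Prop) (s : Equiv.Perm V) (hs : ∀ x, π (s x) = π x) :
    Inv s (blow π G R) := by
  intro x y h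
  rcases h with h | ⟨h1, h2, h3⟩
  · refine Or.inl ?_
    rw [hs, hs]
    exact h
  · refine Or.inr ⟨by rw [hs, hs, h1], fun h => h2 (s.injective h), ?_⟩
    rw [hs]
    exact h3

open Classical in
/-- a graph in which the adjacency of two vertices only depends on their blocks -/
theorem gB_surj (h0 : ∀ b, d b = 0 → ∀ x y, π x = b → π y = b → x = y) {G : SimpleGraph V}
    (hG : ∀ x y x' y', x ≠ y → x' ≠ y' → π x = π x' → π y = π y' → G.Adj x' y' → G.Adj x y) :
    ∃ A, gB π d A = G := by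
  let K : SimpleGraph B :=
    { Adj := fun i j => i ≠ j ∧ ∃ x y, π x = i ∧ π y = j ∧ G.Adj x y
      symm := ⟨fun _ _ ⟨h, x, y, h1, h2, h3⟩ => ⟨h.symm, y, x, h2, h1, h3.symm⟩⟩
      loopless := ⟨fun _ h => h.1 rfl⟩ }
  let R : Finset {b // d b ≠ 0} := univ.filter fun b => ∃ x y, π x = b.1 ∧ π y = b.1 ∧ G.Adj x y
  refine ⟨(ES K).disjSum R, ?_⟩
  ext x y
  show ((toG ((ES K).disjSum R).toLeft).Adj (π x) (π y) ∨ (π x = π y ∧ x ≠ y ∧
    ∃ h : d (π x) ≠ 0, (⟨π x, h⟩ : {b // d b ≠ 0}) ∈ ((ES K).disjSum R).toRight)) ↔ _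
  rw [Finset.toLeft_disjSum, Finset.toRight_disjSum, toG_ES]
  constructor
  · rintro (⟨h1, x', y', h2, h3, h4⟩ | ⟨h1, h2, h3, h4⟩)
    · refine hG x y x' y' ?_ h4.ne h2.symm h3.symm h4
      rintro rfl
      exact h1 rfl
    · obtain ⟨-, x', y', h5, h6, h7⟩ := Finset.mem_filter.1 h4
      exact hG x y x' y' h2 h7.ne h5.symm (h1.symm.trans h6.symm) h7
  · intro h
    by_cases hxy : π x = π y
    · refine Or.inr ⟨hxy, h.ne, ?_, Finset.mem_filter.2 ⟨mem_univ _, x, y, rfl, hxy.symm, h⟩⟩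
      intro hd
      exact h.ne (h0 _ hd x y rfl hxy.symm)
    · exact Or.inl ⟨hxy, x, y, rfl, rfl, h⟩

end blocks

end Pool.Agent.H636.HC
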