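import Pool.Agent.H636.HC.Br

set_option autoImplicit false
set_option linter.unusedSectionVars false

/-!
The criterion for blocks with `2 ^ (c i)` vertices and one block with `q = 3` or `q = 5` vertices.
-/

namespace Pool.Agent.H636.HC

open Finset Pool.Agent.H98R2.Ev Pool.Agent.TH410.KV Pool.Agent.Y577.EV
open Pool.Agent.H98R2.Nb (Inv)
open Pool.Agent.Y407.EV (VX tra tra_apply cyv cyv_apply tra_comm tra_sq cyv_tra adj_ne adj_eq
  not_HH_bot HH_hom exists_ne_zero)

section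

variable {B : Type} (c : B → ℕ) (q : ℕ)

/-- the vertices: blocks with `2 ^ (c i)` vertices and a block with `q` vertices -/
abbrev WX : Type := VX c ⊕ ZMod q

/-- the projection to the blocks -/
def pr : WX c q → Option B := Sum.elim (fun x => some x.1) (fun _ => none)

variable {c q}

/-- translations of the blocks -/
def ta (t : ∀ i : B, Fin (c i) → ZMod 2) : Equiv.Perm (WX c q) := Equiv.sumCongr (tra t) 1

/-- the automorphisms of the blocks and the rotation of the last block -/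
def ca (g : ∀ i : B, (Fin (c i) → ZMod 2) ≃+ (Fin (c i) → ZMod 2)) (z : ZMod q) :
    Equiv.Perm (WX c q) := Equiv.sumCongr (cyv g) (Equiv.addRight z)

/-- the doubling in the last block -/
def dbl (h16 : (16 : ZMod q) = 1) : Equiv.Perm (ZMod q) where
  toFun x := 2 * x
  invFun x := 8 * x
  left_inv x := by
    change (8 : ZMod q) * (2 * x) = x
    have : (8 : ZMod q) * (2 * x) = 16 * x := by ring
    rw [this, h16, one_mul]
  right_inv x := by
    change (2 : ZMod q) * (8 * x) = x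
    have : (2 : ZMod q) * (8 * x) = 16 * x := by ring
    rw [this, h16, one_mul]

/-- the doubling -/
def ha (h16 : (16 : ZMod q) = 1) : Equiv.Perm (WX c q) := Equiv.sumCongr 1 (dbl h16)

theorem ta_inl (t : ∀ i : B, Fin (c i) → ZMod 2) (i : B) (v : Fin (c i) → ZMod 2) :
    (ta t : Equiv.Perm (WX c q)) (Sum.inl ⟨i, v⟩) = Sum.inl ⟨i, v + t i⟩ := rfl

theorem ta_inr (t : ∀ i : B, Fin (c i) → ZMod 2) (z : ZMod q) :
    (ta t : Equiv.Perm (WX c q)) (Sum.inr z) = Sum.inr z := rfl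

theorem ca_inl (g : ∀ i : B, (Fin (c i) → ZMod 2) ≃+ (Fin (c i) → ZMod 2)) (w : ZMod q) (i : B)
    (v : Fin (c i) → ZMod 2) :
    (ca g w : Equiv.Perm (WX c q)) (Sum.inl ⟨i, v⟩) = Sum.inl ⟨i, g i v⟩ := rfl

theorem ca_inr (g : ∀ i : B, (Fin (c i) → ZMod 2) ≃+ (Fin (c i) → ZMod 2)) (w z : ZMod q) :
    (ca g w : Equiv.Perm (WX c q)) (Sum.inr z) = Sum.inr (z + w) := rfl

theorem ha_inl (h16 : (16 : ZMod q) = 1) (x : VX c) :
    (ha h16 : Equiv.Perm (WX c q)) (Sum.inl x) = Sum.inl x := rfl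

theorem ha_inr (h16 : (16 : ZMod q) = 1) (z : ZMod q) :
    (ha h16 : Equiv.Perm (WX c q)) (Sum.inr z) = Sum.inr (2 * z) := rfl

theorem ta_comm (s t : ∀ i : B, Fin (c i) → ZMod 2) :
    (ta s : Equiv.Perm (WX c q)) * ta t = ta t * ta s := by
  apply Equiv.ext
  rintro (⟨i, v⟩ | z)
  · rw [Equiv.Perm.mul_apply, Equiv.Perm.mul_apply, ta_inl, ta_inl, ta_inl, ta_inl,
      add_right_comm]
  · rfl

theorem ta_sq (t : ∀ i : B, Fin (c i) → ZMod 2) : (ta t : Equiv.Perm (WX c q)) ^ 2 = 1 := by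
  apply Equiv.ext
  rintro (⟨i, v⟩ | z)
  · rw [pow_two, Equiv.Perm.mul_apply, ta_inl, ta_inl, Equiv.Perm.one_apply, add_assoc]
    have h : t i + t i = 0 := by
      funext k
      exact CharTwo.add_self_eq_zero _
    rw [h, add_zero]
  · rfl

theorem ca_ta (g : ∀ i : B, (Fin (c i) → ZMod 2) ≃+ (Fin (c i) → ZMod 2)) (w : ZMod q)
    (t : ∀ i : B, Fin (c i) → ZMod 2) :
    (ca g w : Equiv.Perm (WX c q))⁻¹ * ta t * ca g w = ta fun i => (g i).symm (t i) := by
  rw [mul_assoc, inv_mul_eq_iff_eq_mul]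
  apply Equiv.ext
  rintro (⟨i, v⟩ | z)
  · rw [Equiv.Perm.mul_apply, Equiv.Perm.mul_apply, ta_inl, ca_inl, ca_inl, ta_inl,
      map_add, AddEquiv.apply_symm_apply]
  · rfl

theorem ha_pow (h16 : (16 : ZMod q) = 1) : (ha h16 : Equiv.Perm (WX c q)) ^ (2 ^ 2) = 1 := by
  apply Equiv.ext
  rintro (x | z)
  · rfl
  · have e : (2 : ℕ) ^ 2 = 4 := by norm_num
    rw [e, pow_succ, pow_succ, pow_succ, pow_one, Equiv.Perm.mul_apply, Equiv.Perm.mul_apply,
      Equiv.Perm.mul_apply, ha_inr, ha_inr, ha_inr, ha_inr, Equiv.Perm.one_apply]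
    have : (2 : ZMod q) * (2 * (2 * (2 * z))) = 16 * z := by ring
    rw [this, h16, one_mul]

theorem ta_ha (h16 : (16 : ZMod q) = 1) (t : ∀ i : B, Fin (c i) → ZMod 2) :
    (ta t : Equiv.Perm (WX c q)) * ha h16 = ha h16 * ta t := by
  apply Equiv.ext
  rintro (x | z)
  · rfl
  · rfl

theorem ha_ca (h16 : (16 : ZMod q) = 1)
    (g : ∀ i : B, (Fin (c i) → ZMod 2) ≃+ (Fin (c i) → ZMod 2)) :
    (ha h16 : Equiv.Perm (WX c q))⁻¹ * ca g 1 * ha h16 = ca g 8 := by
  rw [mul_assoc, inv_mul_eq_iff_eq_mul]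
  apply Equiv.ext
  rintro (⟨i, v⟩ | z)
  · rfl
  · rw [Equiv.Perm.mul_apply, Equiv.Perm.mul_apply, ha_inr, ca_inr, ca_inr, ha_inr]
    have : (2 : ZMod q) * (z + 8) = 2 * z + 16 := by ring
    rw [this, h16]

theorem inv_pow {V : Type} {s : Equiv.Perm V} {G : SimpleGraph V} (h : Inv s G) (m : ℕ) :
    Inv (s ^ m) G := by
  induction m with
  | zero => exact fun x y hxy => hxy
  | succ m ih =>
    intro x y hxy
    rw [pow_succ', Equiv.Perm.mul_apply, Equiv.Perm.mul_apply]
    exact h _ _ (ih x y hxy)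

theorem ca_pow_inl (g : ∀ i : B, (Fin (c i) → ZMod 2) ≃+ (Fin (c i) → ZMod 2)) (w : ZMod q)
    (m : ℕ) (i : B) (v : Fin (c i) → ZMod 2) :
    ((ca g w : Equiv.Perm (WX c q)) ^ m) (Sum.inl ⟨i, v⟩) = Sum.inl ⟨i, (⇑(g i))^[m] v⟩ := by
  induction m with
  | zero => rfl
  | succ m ih =>
    rw [pow_succ', Equiv.Perm.mul_apply, ih, ca_inl, Function.iterate_succ_apply']

theorem ca_pow_inr (g : ∀ i : B, (Fin (c i) → ZMod 2) ≃+ (Fin (c i) → ZMod 2)) (w z : ZMod q)
    (m : ℕ) :
    ((ca g w : Equiv.Perm (WX c q)) ^ m) (Sum.inr z) = Sum.inr (z + m * w) := by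
  induction m with
  | zero => simp
  | succ m ih =>
    rw [pow_succ', Equiv.Perm.mul_apply, ih, ca_inr]
    congr 1
    push_cast
    ring

theorem ha_pow_inr (h16 : (16 : ZMod q) = 1) (z : ZMod q) (m : ℕ) :
    ((ha h16 : Equiv.Perm (WX c q)) ^ m) (Sum.inr z) = Sum.inr (2 ^ m * z) := by
  induction m with
  | zero => simp
  | succ m ih =>
    rw [pow_succ', Equiv.Perm.mul_apply, ih, ha_inr]
    congr 1
    ring

section classify

variable {G : SimpleGraph (WX c q)} (hG : ∀ t, Inv (ta t) G)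
  {g : ∀ i : B, (Fin (c i) → ZMod 2) ≃+ (Fin (c i) → ZMod 2)}

include hG

theorem mixed [NeZero q] [DecidableEq B] (hc : Inv (ca g 1) G) {i : B}
    {u u' : Fin (c i) → ZMod 2} {z z' : ZMod q}
    (h : G.Adj (Sum.inl ⟨i, u'⟩ : WX c q) (Sum.inr z')) :
    G.Adj (Sum.inl ⟨i, u⟩ : WX c q) (Sum.inr z) := by
  have h1 := inv_pow hc (z - z').val _ _ h
  rw [ca_pow_inl, ca_pow_inr, mul_one, ZMod.natCast_zmod_val, add_sub_cancel] at h1
  set u'' := (⇑(g i))^[(z - z').val] u'
  have h2 := hG (Function.update (fun _ => 0) i (u - u'')) _ _ h1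
  rw [ta_inl, ta_inr, Function.update_self, add_sub_cancel] at h2
  exact h2

theorem inv_ca8 [NeZero q] [DecidableEq B] (hc : Inv (ca g 1) G) : Inv (ca g 8) G := by
  rintro (⟨i, u⟩ | z) (⟨j, v⟩ | w) h
  · exact hc _ _ h
  · exact mixed hG hc h
  · exact (mixed hG hc h.symm).symm
  · have h1 := inv_pow hc 8 _ _ h
    rw [ca_pow_inr, ca_pow_inr, mul_one] at h1
    rw [ca_inr, ca_inr]
    exact_mod_cast h1

theorem classify [NeZero q] [DecidableEq B] (h16 : (16 : ZMod q) = 1) (hc : Inv (ca g 1) G)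
    (hh : Inv (ha h16) G)
    (hg : ∀ i (x y : Fin (c i) → ZMod 2), x ≠ 0 → y ≠ 0 → ∃ m : ℕ, (⇑(g i))^[m] x = y)
    (hq : ∀ x y : ZMod q, x ≠ 0 → y ≠ 0 → ∃ m : ℕ, 2 ^ m * x = y)
    (x y x' y' : WX c q) (hxy : x ≠ y) (hxy' : x' ≠ y') (hx : pr c q x = pr c q x')
    (hy : pr c q y = pr c q y') (h : G.Adj x' y') : G.Adj x y := by
  have hG' : ∀ t, Inv (tra t) (G.comap Sum.inl) := fun t a b hab => by
    have := hG t _ _ (show G.Adj (Sum.inl a) (Sum.inl b) from hab)
    exact this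
  have hc' : Inv (cyv g) (G.comap Sum.inl) := fun a b hab => by
    have := hc _ _ (show G.Adj (Sum.inl a) (Sum.inl b) from hab)
    exact this
  rcases x with ⟨i, u⟩ | z <;> rcases x' with ⟨i', u'⟩ | z'
  · obtain rfl : i = i' := Option.some_injective _ hx
    rcases y with ⟨j, v⟩ | w <;> rcases y' with ⟨j', v'⟩ | w'
    · obtain rfl : j = j' := Option.some_injective _ hy
      by_cases hij : i = j
      · subst hij
        have huv : u ≠ v := by
          rintro rfl
          exact hxy rfl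
        exact adj_eq (G := G.comap Sum.inl) hG' hc' hg huv h
      · exact adj_ne (G := G.comap Sum.inl) hG' hij h
    · exact absurd hy (by simp [pr])
    · exact absurd hy (by simp [pr])
    · exact mixed hG hc h
  · exact absurd hx (by simp [pr])
  · exact absurd hx (by simp [pr])
  · rcases y with ⟨j, v⟩ | w <;> rcases y' with ⟨j', v'⟩ | w'
    · obtain rfl : j = j' := Option.some_injective _ hy
      exact (mixed hG hc h.symm).symm
    · exact absurd hy (by simp [pr])
    · exact absurd hy (by simp [pr])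
    · obtain ⟨m, hm⟩ := hq (w' - z') (w - z) (by
        rw [sub_ne_zero]
        rintro rfl
        exact hxy' rfl) (by
        rw [sub_ne_zero]
        rintro rfl
        exact hxy rfl)
      have h1 := inv_pow hh m _ _ h
      rw [ha_pow_inr, ha_pow_inr] at h1
      have h2 := inv_pow hc (z - 2 ^ m * z').val _ _ h1
      rw [ca_pow_inr, ca_pow_inr, mul_one, ZMod.natCast_zmod_val, add_sub_cancel] at h2
      have e : 2 ^ m * w' + (z - 2 ^ m * z') = w := by
        have : 2 ^ m * w' + (z - 2 ^ m * z') = z + 2 ^ m * (w' - z') := by ring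
        rw [this, hm, add_sub_cancel]
      rwa [e] at h2

end classify

end

section crit

variable {B : Type} [Fintype B] [DecidableEq B] (c : B → ℕ) (q : ℕ)

/-- the blocks with at least two vertices -/
def cn : Option B → ℕ := fun o => o.elim 1 c

theorem pr_surj (q : ℕ) [NeZero q] : Function.Surjective (pr c q) := by
  rintro (_ | i)
  · exact ⟨Sum.inr 0, rfl⟩
  · exact ⟨Sum.inl ⟨i, 0⟩, rfl⟩

open Classical in
/-- the criterion -/
theorem crit [NeZero q] (h3 : 1 < q) (h16 : (16 : ZMod q) = 1)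
    (hq : ∀ x y : ZMod q, x ≠ 0 → y ≠ 0 → ∃ m : ℕ, 2 ^ m * x = y) (hgen : S_gen) (𝓕 : Fam)
    (h0 : ∀ F ∈ 𝓕, ¬ F.2.Colorable 1)
    (hne : NE (univ : Finset (EV (WX c q))) (fun S => ¬ HH 𝓕 (toG S))) :
    (2 : ℤ) ∣ ∑ A : Finset (EV (Option B) ⊕ {o // cn c o ≠ 0}),
      if ¬ HH 𝓕 (gB (pr c q) (cn c) A) then (-1 : ℤ) ^ A.card else 0 := by
  choose g hg using fun i => hgen (c i)
  have hcrit := Pool.Agent.H98R2.Nb.GC.graph_criterion (V := WX c q) (fun G => ¬ HH 𝓕 G)
    (fun G G' hGG' hP h => hP (HH_hom h (SimpleGraph.Hom.ofLE hGG')))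
    (fun s G hP h => hP (HH_hom h (SimpleGraph.Iso.map s G).symm.toHom))
    (not_HH_bot h0) hne 2 2 2 (fun t : (∀ i, Fin (c i) → ZMod 2) => ta t) (ca g 1) (ha h16)
    (fun s t => ta_comm s t) (fun t => ta_sq t) (ha_pow h16)
    (fun t => ta_ha h16 t)
    (fun G hG t => by rw [ca_ta]; exact hG _)
    (fun G hG hG2 => by rw [ha_ca]; exact inv_ca8 hG hG2)
    (fun A : Finset (EV (Option B) ⊕ {o // cn c o ≠ 0}) => gB (pr c q) (cn c) A)
    (fun A A' => gB_le (pr_surj c q) (by
      rintro (_ | i) hi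
      · refine ⟨Sum.inr 0, Sum.inr 1, rfl, rfl, ?_⟩
        intro h
        have h1 : (0 : ZMod q) = 1 := Sum.inr_injective h
        have : Fact (1 < q) := ⟨h3⟩
        exact zero_ne_one h1
      · obtain ⟨v, hv⟩ := exists_ne_zero hi
        refine ⟨Sum.inl ⟨i, 0⟩, Sum.inl ⟨i, v⟩, rfl, rfl, ?_⟩
        intro h
        apply hv
        have h4 := (Sigma.mk.inj_iff.1 (Sum.inl_injective h)).2
        exact (eq_of_heq h4).symm) A A')
    (fun A t => blow_inv _ _ _ (by rintro (x | z) <;> rfl))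
    (fun A => blow_inv _ _ _ (by rintro (x | z) <;> rfl))
    (fun A => blow_inv _ _ _ (by rintro (x | z) <;> rfl))
    (fun G _ hG1 hG2 hG3 => gB_surj (by
      rintro (_ | i) hi x y hx hy
      · exact absurd hi (by simp [cn])
      · rcases x with ⟨j, u⟩ | z
        · rcases y with ⟨k, v⟩ | w
          · obtain rfl : j = i := Option.some_injective _ hx
            obtain rfl : k = j := Option.some_injective _ hy
            have huv : u = v := by
              funext l
              have hi' : c k = 0 := hi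
              exact (Fin.cast hi' l).elim0
            rw [huv]
          · exact absurd hy (by simp [pr])
        · exact absurd hx (by simp [pr]))
      (fun x y x' y' => classify hG1 h16 hG2 hG3 hg hq x y x' y'))
  exact_mod_cast hcrit

end crit

end Pool.Agent.H636.HC
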