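import Pool.Agent.H636.HC.Cr
import Pool.Graph.R_pool_sql_team_seeded_1acbe0a2.Y705.EV.Count
import Pool.Graph.R_pool_sql_team_seeded_1acbe0a2.Y350.EV.Gen

set_option autoImplicit false
set_option linter.unusedSectionVars false

/-!
The signed number of the invariant graphs as a value of the functional, and the resulting relations.
-/

namespace Pool.Agent.H636.HC

open Finset Pool.Agent.H98R2.Ev Pool.Agent.TH410.KV Pool.Agent.Y577.EV
open Pool.Agent.Y705.EV (smul_pow_neg)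

variable {𝓕 : Fam} {B : Type}

open Classical in
/-- the types of the blocks: `σ b` if `R b` and independent otherwise -/
noncomputable def tt (σ : B → TY 𝓕) (R : B → Prop) (b : B) : TY 𝓕 := if R b then σ b else xi

/-- the set of the complete blocks -/
def RB (d : B → ℕ) (T : Finset {b // d b ≠ 0}) : B → Prop :=
  fun b => ∃ h : d b ≠ 0, (⟨b, h⟩ : {b // d b ≠ 0}) ∈ T

/-- the weight of a block -/
noncomputable def zq (d : B → ℕ) (σ : B → TY 𝓕) (b : B) : AA 𝓕 2 :=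
  if d b = 0 then cl 2 (xi : TY 𝓕) else cl 2 (xi : TY 𝓕) - cl 2 (σ b)

theorem prod_zq [Fintype B] [DecidableEq B] (d : B → ℕ) (σ : B → TY 𝓕) :
    ∏ b, zq d σ b = ∑ T : Finset {b // d b ≠ 0},
      ((-1 : ZMod 2) ^ T.card) • ∏ b, cl 2 (tt σ (RB d T) b) := by
  classical
  rw [← Fintype.prod_subtype_mul_prod_subtype (fun b => d b ≠ 0) (fun b => zq d σ b)]
  have e1 : ∏ b : {b // d b ≠ 0}, zq d σ b.1 =
      ∑ T : Finset {b // d b ≠ 0}, ((∏ b ∈ T, (-cl 2 (σ b.1))) *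
        ∏ b ∈ univ \ T, cl 2 (xi : TY 𝓕)) := by
    rw [← Finset.powerset_univ, ← Finset.prod_add]
    refine Finset.prod_congr rfl fun b _ => ?_
    unfold zq
    rw [if_neg b.2]
    ring
  have e2 : ∏ b : {b // ¬ d b ≠ 0}, zq d σ b.1 = ∏ _b : {b // ¬ d b ≠ 0}, cl 2 (xi : TY 𝓕) := by
    refine Finset.prod_congr rfl fun b _ => ?_
    unfold zq
    rw [if_pos (not_not.1 b.2)]
  rw [e1, e2, Finset.sum_mul]
  refine Finset.sum_congr rfl fun T _ => ?_
  rw [← Fintype.prod_subtype_mul_prod_subtype (fun b => d b ≠ 0)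
    (fun b => cl 2 (tt σ (RB d T) b))]
  have e3 : ∏ b : {b // d b ≠ 0}, cl 2 (tt σ (RB d T) b.1) =
      (∏ b ∈ T, cl 2 (σ b.1)) * ∏ b ∈ univ \ T, cl 2 (xi : TY 𝓕) := by
    rw [← Finset.prod_mul_prod_compl T, ← Finset.compl_eq_univ_sdiff]
    congr 1
    · refine Finset.prod_congr rfl fun b hb => ?_
      unfold tt
      rw [if_pos ⟨b.2, hb⟩]
    · refine Finset.prod_congr rfl fun b hb => ?_
      unfold tt
      rw [if_neg]
      rintro ⟨_, h⟩
      exact (Finset.mem_compl.1 hb) h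
  have e4 : ∏ b : {b // ¬ d b ≠ 0}, cl 2 (tt σ (RB d T) b.1) =
      ∏ _b : {b // ¬ d b ≠ 0}, cl 2 (xi : TY 𝓕) := by
    refine Finset.prod_congr rfl fun b _ => ?_
    unfold tt
    rw [if_neg]
    rintro ⟨h, _⟩
    exact b.2 h
  have e5 : ∏ b ∈ T, (-cl 2 (σ b.1)) = (-1) ^ T.card * ∏ b ∈ T, cl 2 (σ b.1) := by
    rw [← Finset.prod_const, ← Finset.prod_mul_distrib]
    exact Finset.prod_congr rfl fun b _ => by ring
  rw [e3, e4, e5]
  refine Eq.trans ?_ (smul_pow_neg (A := AA 𝓕 2) T.card _).symm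
  ring

open Classical in
theorem count [Fintype B] [DecidableEq B] {V : Type} (π : V → B)
    (hπ : Function.Surjective π) (d : B → ℕ) (σ : B → TY 𝓕)
    (hσ : ∀ b, d b ≠ 0 → ∀ (F : 𝓕) (U : Finset (Fin F.1.1)), U ∈ (σ b).1 F ↔
      Cb {v // π v = b} F U) :
    ((∑ A : Finset (EV B ⊕ {b // d b ≠ 0}),
      if ¬ HH 𝓕 (gB π d A) then (-1 : ℤ) ^ A.card else 0 : ℤ) : ZMod 2) =
      Lb 𝓕 2 (∏ b, zq d σ b) := by
  rw [prod_zq, map_sum, Int.cast_sum]
  rw [← (Finset.sumEquiv (α := EV B) (β := {b // d b ≠ 0})).symm.toEquiv.sum_comp,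
    Fintype.sum_prod_type, Finset.sum_comm]
  refine Finset.sum_congr rfl fun T _ => ?_
  rw [map_smul, Lb_prod, smul_eq_mul]
  unfold NN
  rw [Finset.mul_sum]
  refine Finset.sum_congr rfl fun S _ => ?_
  have hl : (S.disjSum T).toLeft = S := Finset.toLeft_disjSum
  have hr : (S.disjSum T).toRight = T := Finset.toRight_disjSum
  change (((if ¬ HH 𝓕 (gB π d (S.disjSum T)) then (-1 : ℤ) ^ (S.disjSum T).card else 0 : ℤ)) :
    ZMod 2) = _
  rw [card_disjSum]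
  have hb : HH 𝓕 (gB π d (S.disjSum T)) ↔ Bad (tt σ (RB d T)) (toG S) := by
    unfold gB
    rw [hl, hr]
    refine bridge π hπ (toG S) _ (tt σ (RB d T)) ?_ ?_
    · intro b hR F U
      obtain ⟨h, h'⟩ := hR
      have e : tt σ (RB d T) b = σ b := by
        unfold tt
        rw [if_pos ⟨h, h'⟩]
      rw [e]
      exact hσ b h F U
    · intro b hR
      have hR' : ¬ RB d T b := hR
      unfold tt
      rw [if_neg hR']
  unfold ind
  by_cases h : Bad (tt σ (RB d T)) (toG S)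
  · rw [if_neg (not_not.2 (hb.2 h)), if_pos h]
    simp
  · rw [if_pos (fun h' => h (hb.1 h')), if_neg h]
    push_cast
    ring

/-- the types of the complete blocks -/
def sg' (𝓕 : Fam) (c : B → ℕ) (q : ℕ) : Option B → TY 𝓕 :=
  fun o => o.elim (J q xi) (fun i => (J 2)^[c i] xi)

theorem sg'_mem (c : B → ℕ) (q : ℕ) [NeZero q] (o : Option B) (F : 𝓕)
    (U : Finset (Fin F.1.1)) : U ∈ (sg' 𝓕 c q o).1 F ↔ Cb {v // pr c q v = o} F U := by
  classical
  rcases o with _ | i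
  · have e : ZMod q ≃ {v : WX c q // pr c q v = none} :=
      { toFun := fun z => ⟨Sum.inr z, rfl⟩
        invFun := fun v => v.1.elim (fun _ => 0) id
        left_inv := fun z => rfl
        right_inv := by
          rintro ⟨(x | z), h⟩
          · exact absurd h (by simp [pr])
          · rfl }
    rw [← Cb_of_equiv e]
    exact mem_J q F U
  · have e : (Fin (c i) → ZMod 2) ≃ {v : WX c q // pr c q v = some i} :=
      { toFun := fun z => ⟨Sum.inl ⟨i, z⟩, rfl⟩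
        invFun := fun v => v.1.elim (fun x => if h : x.1 = i then h ▸ x.2 else 0) (fun _ => 0)
        left_inv := fun z => by simp
        right_inv := by
          rintro ⟨(⟨j, x⟩ | z), h⟩
          · obtain rfl : j = i := Option.some_injective _ h
            simp
          · exact absurd h (by simp [pr]) }
    rw [← Cb_of_equiv e]
    exact mem_iter' (c i) F U

/-- the numbers `3` and `5` -/
structure Okq (q : ℕ) : Prop where
  one_lt : 1 < q
  h16 : (16 : ZMod q) = 1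
  gen : ∀ x y : ZMod q, x ≠ 0 → y ≠ 0 → ∃ m : ℕ, 2 ^ m * x = y

theorem okq3 : Okq 3 where
  one_lt := by norm_num
  h16 := by decide
  gen x y hx hy := by
    have h : ∀ x y : ZMod 3, x ≠ 0 → y ≠ 0 → ∃ m : Fin 2, (2 : ZMod 3) ^ (m : ℕ) * x = y := by
      decide
    obtain ⟨m, hm⟩ := h x y hx hy
    exact ⟨m, hm⟩

theorem okq5 : Okq 5 where
  one_lt := by norm_num
  h16 := by decide
  gen x y hx hy := by
    have h : ∀ x y : ZMod 5, x ≠ 0 → y ≠ 0 → ∃ m : Fin 4, (2 : ZMod 5) ^ (m : ℕ) * x = y := by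
      decide
    obtain ⟨m, hm⟩ := h x y hx hy
    exact ⟨m, hm⟩

/-- the class of a complete block with `q` vertices -/
noncomputable def Kc (𝓕 : Fam) (q : ℕ) : AA 𝓕 2 := cl 2 (J q (xi : TY 𝓕))

theorem relations' {q : ℕ} [NeZero q] (hq : Okq q) {n : ℕ}
    (h1 : ∀ F ∈ 𝓕, ¬ F.2.Colorable 1)
    (hNE : NE (univ : Finset (EV (Fin n))) (fun S => ¬ HH 𝓕 (toG S))) (s a b : ℕ)
    (hn : s + 8 * a + 32 * b + q = n) :
    fL 𝓕 ((Xc 𝓕 0 ^ s * (Xc 𝓕 0 ^ 2 + Xc 𝓕 0 ^ 4 + Xc 𝓕 0 ^ 8) ^ a *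
      (Xc 𝓕 0 ^ 2 + Xc 𝓕 0 ^ 16 + Xc 𝓕 0 ^ 32) ^ b) * (Xc 𝓕 0 - Kc 𝓕 q)) = 0 := by
  classical
  have hch : CharP (AA 𝓕 2) 2 := charP_of (h := h1)
  have hcard : Fintype.card (Fin n) = Fintype.card (WX (cc s a b) q) := by
    rw [Fintype.card_fin, Fintype.card_sum, ZMod.card, Fintype.card_sigma]
    have h2 : ∀ i, Fintype.card (Fin (cc s a b i) → ZMod 2) = 2 ^ cc s a b i := fun i => by
      rw [Fintype.card_fun, ZMod.card, Fintype.card_fin]
    rw [Finset.sum_congr rfl (fun i _ => h2 i), Fintype.sum_sum_type, Fintype.sum_sum_type]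
    simp only [cc, Sum.elim_inl, Sum.elim_inr, sum_const, card_univ, Fintype.card_fin,
      smul_eq_mul]
    omega
  have hNE2 := ne_transport (Fintype.equivOfCardEq hcard) hNE
  have hd := crit (cc s a b) q hq.one_lt hq.h16 hq.gen Pool.Agent.Y350.EV.t 𝓕 h1 hNE2
  have hc := count (𝓕 := 𝓕) (pr (cc s a b) q) (pr_surj (cc s a b) q) (cn (cc s a b))
    (sg' 𝓕 (cc s a b) q) (fun o _ F U => sg'_mem (cc s a b) q o F U)
  rw [(ZMod.intCast_zmod_eq_zero_iff_dvd _ 2).2 (by exact_mod_cast hd)] at hc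
  have e : (∏ o, zq (cn (cc s a b)) (sg' 𝓕 (cc s a b) q) o) = (Xc 𝓕 0 - Kc 𝓕 q) *
      (Xc 𝓕 0 ^ s * ((Xc 𝓕 0 ^ 2 + Xc 𝓕 0 ^ 4 + Xc 𝓕 0 ^ 8) ^ a *
      (Xc 𝓕 0 ^ 2 + Xc 𝓕 0 ^ 16 + Xc 𝓕 0 ^ 32) ^ b)) := by
    rw [Fintype.prod_option]
    have e1 : zq (cn (cc s a b)) (sg' 𝓕 (cc s a b) q) none = Xc 𝓕 0 - Kc 𝓕 q := by
      unfold zq
      rw [if_neg (by simp [cn])]
      rfl
    have e2 : ∀ i, zq (cn (cc s a b)) (sg' 𝓕 (cc s a b) q) (some i) = zz 𝓕 (cc s a b i) :=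
      fun i => rfl
    rw [e1, Finset.prod_congr rfl (fun i _ => e2 i), Fintype.prod_sum_type,
      Fintype.prod_sum_type]
    simp only [cc, Sum.elim_inl, Sum.elim_inr, prod_const, card_univ, Fintype.card_fin]
    rw [zz_zero, zz_pos (by norm_num), zz_pos (by norm_num), (X3 (Xc_sq (𝓕 := 𝓕))).1,
      (X3 (Xc_sq (𝓕 := 𝓕))).2]
  rw [e, mul_comm, ← mul_assoc] at hc
  exact hc.symm

end Pool.Agent.H636.HC
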