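import Pool.Agent.H636.HC.Va
import Pool.Graph.R_pool_sql_team_seeded_1acbe0a2.Y67.EV.Small
import Pool.Graph.R_pool_sql_team_seeded_1acbe0a2.Y454.EW.Even
import Pool.Graph.R_pool_sql_team_seeded_1acbe0a2.Y454.EW.Odd

set_option autoImplicit false
set_option linter.unusedSectionVars false

/-!
The contradiction for a homomorphism-closed property that is not evasive.
-/

namespace Pool.Agent.H636.HC

open Finset Pool.Agent.H98R2.Ev Pool.Agent.TH410.KV Pool.Agent.Y577.EV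

variable {𝓕 : Fam}

/-- the functional after multiplication by the weight of the last block -/
noncomputable def fq (𝓕 : Fam) (q : ℕ) : AA 𝓕 2 →+ ZMod 2 :=
  (fL 𝓕).comp (AddMonoidHom.mulRight (Xc 𝓕 0 - Kc 𝓕 q))

theorem fq_apply (q : ℕ) (y : AA 𝓕 2) : fq 𝓕 q y = fL 𝓕 (y * (Xc 𝓕 0 - Kc 𝓕 q)) := rfl

theorem fq_pow (q j : ℕ) : fq 𝓕 q (Xc 𝓕 0 ^ j) =
    fL 𝓕 (Xc 𝓕 0 ^ (j + 1)) - fL 𝓕 (Xc 𝓕 0 ^ j * Kc 𝓕 q) := by
  rw [fq_apply, mul_sub, map_sub, ← pow_succ]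

/-- the case in which the threshold has the parity of the number of vertices -/
theorem even_gap {q : ℕ} [NeZero q] (hq : Okq q) (hq3 : 3 ≤ q) {n ω k t : ℕ}
    (hn : n = 112 + 32 * k + t + q)
    (h0 : ∀ F ∈ 𝓕, ¬ F.2.Colorable ω) (h1 : ∃ F ∈ 𝓕, F.2.Colorable (ω + 1))
    (hNE : NE (univ : Finset (EV (Fin n))) (fun S => ¬ HH 𝓕 (toG S)))
    (hlo : t + 46 + 2 * k + q ≤ ω) (hhi : ω ≤ t + 74 + 32 * k + q)
    (hpar : ω ≡ n [MOD 2]) (h4 : (ω + 2 - q) % 4 = 0 ∨ (ω + 2 - q) % 4 = 3)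
    (hodd : q % 2 = 1) : False := by
  have hcol1 : ∀ F ∈ 𝓕, ¬ F.2.Colorable 1 := fun F hF hc => h0 F hF (hc.mono (by omega))
  have hch : CharP (AA 𝓕 2) 2 := charP_of (h := hcol1)
  have hwin := Win.t (AA 𝓕 2) (Xc 𝓕 0) (fq 𝓕 q) (n - q) (fun s a b hs => by
    rw [fq_apply]
    exact relations' hq hcol1 hNE s a b (by omega))
  obtain ⟨e, he⟩ : ∃ e, ω = e + 14 + q := ⟨ω - 14 - q, by omega⟩
  have hp : ω % 2 = n % 2 := hpar
  have h5 := hwin k t e (by omega) (by omega) (by omega) (by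
    change e % 2 = (n - q) % 2
    omega)
  have z1 : ∀ j, 1 ≤ j → j + q ≤ ω → fq 𝓕 q (Xc 𝓕 0 ^ j) = 0 := by
    intro j hj hjω
    have h6 := val_le (q := q) (by omega) h0 (a := j) (b := 0) (by omega) (by omega)
    rw [pow_zero, mul_one] at h6
    have h7 : fL 𝓕 (Xc 𝓕 0 ^ (j + 1)) = 0 := u_zero h0 (by omega) (by omega)
    rw [fq_pow, h6, h7, sub_zero]
  rw [z1 e (by omega) (by omega), z1 (e + 8) (by omega) (by omega),
    z1 (e + 12) (by omega) (by omega), fq_pow] at h5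
  have h6 : fL 𝓕 (Xc 𝓕 0 ^ (e + 16 + 1)) = 0 := u_zero h0 (by omega) (by omega)
  have h7 := val_main (q := q) (by omega) h0 h1 (e := e + 16) (by omega) (by omega) (by
    have : ω + 2 - q = e + 16 := by omega
    rwa [this] at h4)
  rw [h6, h7] at h5
  exact absurd h5 (by decide)

/-- the case in which the threshold and the number of vertices have different parity -/
theorem odd_gap {n ω k t : ℕ} (hn : n = 112 + 32 * k + t)
    (h0 : ∀ F ∈ 𝓕, ¬ F.2.Colorable ω) (h1 : ∃ F ∈ 𝓕, F.2.Colorable (ω + 1))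
    (hNE : NE (univ : Finset (EV (Fin n))) (fun S => ¬ HH 𝓕 (toG S)))
    (hlo : t + 47 + 2 * k ≤ ω) (hhi : ω ≤ t + 75 + 32 * k)
    (hpar : ω + 1 ≡ n [MOD 2]) : False := by
  have hcol1 : ∀ F ∈ 𝓕, ¬ F.2.Colorable 1 := fun F hF hc => h0 F hF (hc.mono (by omega))
  have hch : CharP (AA 𝓕 2) 2 := charP_of (h := hcol1)
  have hwin := Win.t (AA 𝓕 2) (Xc 𝓕 0) (fL 𝓕) n
    (relations (Pool.Agent.Y407.EV.t Pool.Agent.Y350.EV.t) Pool.Agent.Y705.EV.t hcol1 hNE)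
  obtain ⟨e, he⟩ : ∃ e, ω = e + 15 := ⟨ω - 15, by omega⟩
  have hp : (ω + 1) % 2 = n % 2 := hpar
  have h5 := hwin k t e hn (by omega) (by omega) (by
    change e % 2 = n % 2
    omega)
  have z1 : ∀ j, 2 ≤ j → j ≤ ω → fL 𝓕 (Xc 𝓕 0 ^ j) = 0 := fun j hj hjω => u_zero h0 hj hjω
  have h6 : fL 𝓕 (Xc 𝓕 0 ^ (e + 16)) = 1 := by
    have := u_succ (by omega) h0 h1
    rw [he] at this
    exact this
  rw [z1 e (by omega) (by omega), z1 (e + 8) (by omega) (by omega),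
    z1 (e + 12) (by omega) (by omega), h6] at h5
  exact absurd h5 (by decide)

/-- small thresholds -/
theorem small_case {n ω k t N : ℕ} (hn : n = 112 + 32 * k + t) (hω : 1 ≤ ω)
    (h0 : ∀ F ∈ 𝓕, ¬ F.2.Colorable ω) (h1 : ∃ F ∈ 𝓕, F.2.Colorable (ω + 1))
    (hNE : NE (univ : Finset (EV (Fin n))) (fun S => ¬ HH 𝓕 (toG S)))
    (hN : 1 ≤ N) (hωN : ω < 2 ^ N) (hk : 2 ^ N ≤ 16 + 15 * k) : False := by
  have hcol1 : ∀ F ∈ 𝓕, ¬ F.2.Colorable 1 := fun F hF hc => h0 F hF (hc.mono hω)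
  have hch : CharP (AA 𝓕 2) 2 := charP_of (h := hcol1)
  have hA := relations (Pool.Agent.Y407.EV.t Pool.Agent.Y350.EV.t) Pool.Agent.Y705.EV.t hcol1 hNE
  have hwin := Win.t (AA 𝓕 2) (Xc 𝓕 0) (fL 𝓕) n hA
  have hD : ∑ k ∈ range (N + 1), (N.choose k : AA 𝓕 2) * Xc 𝓕 0 ^ (2 ^ k) = 0 := by
    rw [← X_binom (Xc_sq (𝓕 := 𝓕)) N]
    obtain ⟨F, hF, hc⟩ := h1
    exact Xc_eq_zero ⟨F, hF, hc.mono (by omega)⟩
  have hfn : fL 𝓕 (Xc 𝓕 0 ^ n) = 0 := by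
    have := hA n 0 0 (by omega)
    simpa using this
  have h6 := Pool.Agent.Y67.EV.Small.t (AA 𝓕 2) (Xc 𝓕 0) (fL 𝓕) n N (t + 32 + 2 * k)
    (t + 60 + 32 * k) hN hD (by omega) hfn (by change (t + 32 + 2 * k) % 2 = n % 2; omega)
    (by omega) (by omega) (fun e h3 h4 h5 => hwin k t e hn h3 h4 h5)
  have h7 : fL 𝓕 (Xc 𝓕 0) = 1 := u_one hcol1
  rw [h6] at h7
  exact zero_ne_one h7

theorem main {n ω : ℕ} (hn : 368 ≤ n) (hω1 : 1 ≤ ω) (hωn : ω + 1 ≤ n)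
    (h0 : ∀ F ∈ 𝓕, ¬ F.2.Colorable ω) (h1 : ∃ F ∈ 𝓕, F.2.Colorable (ω + 1))
    (hNE : NE (univ : Finset (EV (Fin n))) (fun S => ¬ HH 𝓕 (toG S))) : False := by
  classical
  have htop : HH 𝓕 (⊤ : SimpleGraph (Fin n)) := by
    obtain ⟨F, hF, hc⟩ := h1
    exact ⟨F, hF, hc.mono hωn⟩
  obtain ⟨k, t, hkt, ht⟩ : ∃ k t, n = 112 + 32 * k + t ∧ t < 32 :=
    ⟨(n - 112) / 32, (n - 112) % 32, by omega, Nat.mod_lt _ (by norm_num)⟩
  have hk8 : 8 ≤ k := by omega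
  -- thresholds near the number of vertices
  by_cases htopω : n ≤ ω + 37
  · rcases Nat.even_or_odd n with hne | hno
    · exact Pool.Agent.Y454.EW.Even.t n 𝓕 (by omega) hne
        (fun F hF hc => h0 F hF (hc.mono (by omega))) htop hNE
    · exact Pool.Agent.Y454.EW.Odd.t n ω 𝓕 (by omega) hno (by omega) h0 htop hNE
  -- small thresholds
  by_cases hs : 2 * ω < 2 ^ (Nat.log 2 ω + 1) ∧ 2 ^ (Nat.log 2 ω + 1) ≤ 16 + 15 * k
  · exact small_case hkt hω1 h0 h1 hNE (N := Nat.log 2 ω + 1) (by omega)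
      (Nat.lt_pow_succ_log_self (by norm_num) ω) hs.2
  by_cases hs2 : 2 ^ (Nat.log 2 ω + 1) ≤ 16 + 15 * k
  · exact small_case hkt hω1 h0 h1 hNE (N := Nat.log 2 ω + 1) (by omega)
      (Nat.lt_pow_succ_log_self (by norm_num) ω) hs2
  have h3 : 2 ^ Nat.log 2 ω ≤ ω := Nat.pow_log_le_self 2 (by omega)
  have h5 : 2 ^ (Nat.log 2 ω + 1) = 2 * 2 ^ Nat.log 2 ω := by rw [pow_succ, mul_comm]
  -- the threshold is at least `82 + 2 * k`
  have hlarge : 82 + 2 * k ≤ ω := by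
    have h6 : 16 + 15 * k < 2 * 2 ^ Nat.log 2 ω := by omega
    have h7 : 7 ≤ Nat.log 2 ω := by
      by_contra hcon
      have h8 : 2 ^ Nat.log 2 ω ≤ 2 ^ 6 := Nat.pow_le_pow_right (by norm_num) (by omega)
      have h9 : (2 : ℕ) ^ 6 = 64 := by norm_num
      omega
    have h8 : 2 ^ 7 ≤ 2 ^ Nat.log 2 ω := Nat.pow_le_pow_right (by norm_num) h7
    have h9 : (2 : ℕ) ^ 7 = 128 := by norm_num
    omega
  by_cases hpar : ω % 2 = n % 2
  · -- the same parity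
    by_cases h4 : ω % 4 = 0 ∨ ω % 4 = 1
    · obtain ⟨k', t', hkt', ht'⟩ : ∃ k' t', n - 3 = 112 + 32 * k' + t' ∧ t' < 32 :=
        ⟨(n - 3 - 112) / 32, (n - 3 - 112) % 32, by omega, Nat.mod_lt _ (by norm_num)⟩
      exact even_gap okq3 le_rfl (k := k') (t := t') (by omega) h0 h1 hNE (by omega) (by omega)
        hpar (by omega) (by norm_num)
    · obtain ⟨k', t', hkt', ht'⟩ : ∃ k' t', n - 5 = 112 + 32 * k' + t' ∧ t' < 32 :=
        ⟨(n - 5 - 112) / 32, (n - 5 - 112) % 32, by omega, Nat.mod_lt _ (by norm_num)⟩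
      exact even_gap okq5 (by norm_num) (k := k') (t := t') (by omega) h0 h1 hNE (by omega)
        (by omega) hpar (by omega) (by norm_num)
  · -- different parity
    exact odd_gap hkt h0 h1 hNE (by omega) (by omega) (by
      change (ω + 1) % 2 = n % 2
      omega)

end Pool.Agent.H636.HC
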