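import Pool.Agent.H636.HC.Ct

set_option autoImplicit false
set_option linter.unusedSectionVars false

/-!
Values of the functional at products of complete blocks of arbitrary sizes.
-/

namespace Pool.Agent.H636.HC

open Finset Pool.Agent.H98R2.Ev Pool.Agent.TH410.KV Pool.Agent.Y577.EV

variable {𝓕 : Fam}

/-- complete blocks with `w v` vertices -/
def Kt (𝓕 : Fam) {V : Type} (w : V → ℕ) : V → TY 𝓕 := fun v => J (w v) (xi : TY 𝓕)

theorem mem_J' {n : ℕ} (hn : 1 ≤ n) (F : 𝓕) (U : Finset (Fin F.1.1)) :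
    U ∈ (J n (xi : TY 𝓕)).1 F ↔ Cb (Fin n) F U := by
  have : NeZero n := ⟨by omega⟩
  rw [mem_J]
  exact (Cb_of_equiv (ZMod.finEquiv n).toEquiv F U).symm

theorem J_one : J 1 (xi : TY 𝓕) = xi := by
  apply Subtype.ext
  funext F
  ext U
  change U ∈ (J 1 (xi : TY 𝓕)).1 F ↔ U ∈ (xi : TY 𝓕).1 F
  rw [mem_J' le_rfl]
  constructor
  · rintro ⟨col, h⟩ x hx y hy hxy
    exact h x hx y hy hxy (Subsingleton.elim _ _)
  · intro h
    exact ⟨fun _ => 0, fun x hx y hy hxy => absurd hxy (h x hx y hy)⟩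

section

variable {V : Type} {w : V → ℕ} {G : SimpleGraph V}

theorem bad_col' (hw : ∀ v, 1 ≤ w v) (h : Bad (Kt 𝓕 w) G) :
    ∃ (F : 𝓕) (κ : Fin F.1.1 → V) (col : ∀ v, Fin F.1.1 → Fin (w v)),
      (∀ x y, F.1.2.Adj x y → κ x = κ y → col (κ x) x ≠ col (κ x) y) ∧
      ∀ x y, F.1.2.Adj x y → κ x ≠ κ y → G.Adj (κ x) (κ y) := by
  classical
  obtain ⟨F, κ, h1, h2⟩ := h
  have h3 := fun v => (mem_J' (hw v) F _).1 (h1 v)
  choose col hcol using h3
  refine ⟨F, κ, col, fun x y hxy hκ heq => ?_, h2⟩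
  exact hcol (κ x) x (by simp) y (by simp [hκ.symm]) hxy heq

variable [Fintype V] [DecidableEq V]

/-- two non-adjacent blocks can share colours -/
theorem bad_nonadj (hw : ∀ v, 1 ≤ w v) (h : Bad (Kt 𝓕 w) G) {v u : V} (hvu : v ≠ u)
    (hn : ¬ G.Adj v u) (hj : w u ≤ w v) :
    ∃ F ∈ 𝓕, F.2.Colorable (∑ a ∈ univ.erase u, w a) := by
  classical
  obtain ⟨F, κ, col, h1, h2⟩ := bad_col' hw h
  refine ⟨F.1, F.2, ?_⟩
  have hc : Fintype.card (Σ a : {a // a ≠ u}, Fin (w a.1)) = ∑ a ∈ univ.erase u, w a := by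
    rw [Fintype.card_sigma]
    rw [← Finset.sum_subtype (univ.erase u) (p := fun a => a ≠ u) (by simp)
      (fun a => Fintype.card (Fin (w a)))]
    exact Finset.sum_congr rfl fun a _ => Fintype.card_fin _
  rw [← hc]
  let ι : Fin (w u) → Fin (w v) := Fin.castLE hj
  have hι : Function.Injective ι := Fin.castLE_injective hj
  let φ : (Σ a, Fin (w a)) → (Σ a : {a // a ≠ u}, Fin (w a.1)) := fun p =>
    if hp : p.1 = u then ⟨⟨v, hvu⟩, ι (hp ▸ p.2)⟩ else ⟨⟨p.1, hp⟩, p.2⟩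
  have hφ : ∀ p q : Σ a, Fin (w a), φ p = φ q → p = q ∨ (p.1 = u ∧ q.1 = v) ∨
      (p.1 = v ∧ q.1 = u) := by
    rintro ⟨a, s⟩ ⟨b, r⟩ he
    simp only [φ] at he
    by_cases ha : a = u <;> by_cases hb : b = u
    · subst ha
      subst hb
      rw [dif_pos rfl, dif_pos rfl] at he
      have h5 : s = r := hι (eq_of_heq (Sigma.mk.inj he).2)
      left
      rw [h5]
    · rw [dif_pos ha, dif_neg hb] at he
      have h3 := congrArg Subtype.val (Sigma.mk.inj he).1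
      exact Or.inr (Or.inl ⟨ha, h3.symm⟩)
    · rw [dif_neg ha, dif_pos hb] at he
      have h3 := congrArg Subtype.val (Sigma.mk.inj he).1
      exact Or.inr (Or.inr ⟨h3, hb⟩)
    · rw [dif_neg ha, dif_neg hb] at he
      have h3 := congrArg Subtype.val (Sigma.mk.inj he).1
      change a = b at h3
      subst h3
      have := eq_of_heq (Sigma.mk.inj he).2
      left
      rw [this]
  refine (SimpleGraph.Coloring.mk
    (fun x => φ (⟨κ x, col (κ x) x⟩ : Σ a, Fin (w a))) ?_).colorable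
  intro x y hxy heq
  rcases hφ _ _ heq with h3 | ⟨h3, h4⟩ | ⟨h3, h4⟩
  · have e1 : κ x = κ y := congrArg Sigma.fst h3
    refine h1 x y hxy e1 ?_
    have e2 : HEq (col (κ x) x) (col (κ y) y) := (Sigma.mk.inj h3).2
    rw [← e1] at e2
    exact eq_of_heq e2
  · change κ x = u at h3
    change κ y = v at h4
    have h5 := h2 x y hxy (by rw [h3, h4]; exact hvu.symm)
    rw [h3, h4] at h5
    exact hn h5.symm
  · change κ x = v at h3
    change κ y = u at h4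
    have h5 := h2 x y hxy (by rw [h3, h4]; exact hvu)
    rw [h3, h4] at h5
    exact hn h5

/-- total number of colours -/
theorem bad_all (hw : ∀ v, 1 ≤ w v) (h : Bad (Kt 𝓕 w) G) :
    ∃ F ∈ 𝓕, F.2.Colorable (∑ a, w a) := by
  classical
  obtain ⟨F, κ, col, h1, h2⟩ := bad_col' hw h
  refine ⟨F.1, F.2, ?_⟩
  have hc : Fintype.card (Σ v, Fin (w v)) = ∑ v, w v := by
    rw [Fintype.card_sigma]
    exact Finset.sum_congr rfl fun v _ => Fintype.card_fin _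
  rw [← hc]
  refine (SimpleGraph.Coloring.mk (fun x => (⟨κ x, col (κ x) x⟩ : Σ v, Fin (w v)))
    ?_).colorable
  intro x y hxy heq
  have e1 : κ x = κ y := congrArg Sigma.fst heq
  refine h1 x y hxy e1 ?_
  have e2 : HEq (col (κ x) x) (col (κ y) y) := (Sigma.mk.inj heq).2
  rw [← e1] at e2
  exact eq_of_heq e2

theorem sig_eq' {V : Type} {w : V → ℕ} (p : Σ v, Fin (w v)) (v : V)
    (a : Fin (w v)) (h : p.1 = v) (h2 : h ▸ p.2 = a) : p = ⟨v, a⟩ := by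
  subst h
  subst h2
  rfl

/-- a colouring with the colours of the blocks in `T`, which form a complete graph, fits -/
theorem bad_of_complete (hw : ∀ v, 1 ≤ w v) (T : Finset V)
    (hT : ∀ a ∈ T, ∀ b ∈ T, a ≠ b → G.Adj a b) {F : Σ k : ℕ, SimpleGraph (Fin k)} (hF : F ∈ 𝓕)
    (hc : F.2.Colorable (∑ v ∈ T, w v)) : Bad (Kt 𝓕 w) G := by
  classical
  have hcd : Fintype.card (Σ a : {a // a ∈ T}, Fin (w a.1)) = ∑ a ∈ T, w a := by
    rw [Fintype.card_sigma]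
    rw [← Finset.sum_subtype T (p := fun a => a ∈ T) (by simp)
      (fun a => Fintype.card (Fin (w a)))]
    exact Finset.sum_congr rfl fun a _ => Fintype.card_fin _
  obtain ⟨C⟩ := hc
  let e : (Σ a : {a // a ∈ T}, Fin (w a.1)) ≃ Fin (∑ a ∈ T, w a) :=
    Fintype.equivFinOfCardEq hcd
  let D' : Fin F.1 → Σ a : {a // a ∈ T}, Fin (w a.1) := fun x => e.symm (C x)
  let D : Fin F.1 → Σ a, Fin (w a) := fun x => ⟨(D' x).1.1, (D' x).2⟩
  have hDT : ∀ x, (D x).1 ∈ T := fun x => (D' x).1.2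
  have hD : ∀ x y, F.2.Adj x y → D x ≠ D y := by
    intro x y hxy h
    have h1 : D' x = D' y := by
      have h2 : ∀ p p' : (Σ a : {a // a ∈ T}, Fin (w a.1)),
          (⟨p.1.1, p.2⟩ : Σ a, Fin (w a)) = ⟨p'.1.1, p'.2⟩ → p = p' := by
        rintro ⟨⟨a, ha⟩, s⟩ ⟨⟨b, hb⟩, r⟩ h3
        have h4 := (Sigma.mk.inj h3).1
        change a = b at h4
        subst h4
        have h5 := eq_of_heq (Sigma.mk.inj h3).2
        change s = r at h5
        rw [h5]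
      exact h2 _ _ h
    exact C.valid hxy (e.symm.injective h1)
  refine ⟨⟨F, hF⟩, fun x => (D x).1, fun v => ?_, fun x y hxy hne => ?_⟩
  · change _ ∈ (J (w v) (xi : TY 𝓕)).1 ⟨F, hF⟩
    rw [mem_J' (hw v)]
    refine ⟨fun x => if h : (D x).1 = v then h ▸ (D x).2 else ⟨0, hw v⟩, ?_⟩
    intro x hx y hy hxy
    simp only [mem_filter, mem_univ, true_and] at hx hy
    intro heq
    change (if h : (D x).1 = v then h ▸ (D x).2 else (⟨0, hw v⟩ : Fin (w v))) =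
      (if h : (D y).1 = v then h ▸ (D y).2 else (⟨0, hw v⟩ : Fin (w v))) at heq
    rw [dif_pos hx, dif_pos hy] at heq
    apply hD x y hxy
    rw [sig_eq' (D x) v _ hx rfl, sig_eq' (D y) v _ hy rfl, heq]
  · exact hT _ (hDT x) _ (hDT y) hne

/-- few colours -/
theorem NN_le {ω : ℕ} (hw : ∀ v, 1 ≤ w v) (hV : 2 ≤ Fintype.card V)
    (h0 : ∀ F ∈ 𝓕, ¬ F.2.Colorable ω) (hj : ∑ v, w v ≤ ω) : NN 2 (Kt 𝓕 w) = 0 := by
  refine NN_zero hV _ fun S hb => ?_
  obtain ⟨F, hF, hc⟩ := bad_all hw hb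
  exact h0 F hF (hc.mono hj)

/-- only the complete graph is bad -/
theorem NN_eq_one {ω m : ℕ} (hm : 1 ≤ m) (hw : ∀ v, m ≤ w v) (hV : 2 ≤ Fintype.card V)
    (h0 : ∀ F ∈ 𝓕, ¬ F.2.Colorable ω) (h1 : ∃ F ∈ 𝓕, F.2.Colorable (ω + 1))
    (hj : ∑ v, w v = ω + m) : NN 2 (Kt 𝓕 w) = 1 := by
  classical
  have hw1 : ∀ v, 1 ≤ w v := fun v => hm.trans (hw v)
  have key : ∀ (S : Finset (EV V)) (v u : V), v ≠ u → ¬ (toG S).Adj v u → w u ≤ w v →
      ¬ Bad (Kt 𝓕 w) (toG S) := by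
    intro S v u hvu hn hle hb
    obtain ⟨F, hF, hc⟩ := bad_nonadj hw1 hb hvu hn hle
    refine h0 F hF (hc.mono ?_)
    have h2 := Finset.add_sum_erase univ w (mem_univ u)
    have h3 := hw u
    omega
  refine NN_one hV _ fun S => ⟨fun hb => ?_, fun hS => ?_⟩
  · by_contra hS
    obtain ⟨v, u, hvu, hn⟩ := exists_nonadj hS
    rcases le_total (w u) (w v) with h | h
    · exact key S v u hvu hn h hb
    · exact key S u v hvu.symm (fun h' => hn h'.symm) h hb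
  · rw [hS, toG_univ]
    obtain ⟨F, hF, hc⟩ := h1
    refine bad_of_complete hw1 univ (fun a _ b _ hab => hab) hF (hc.mono ?_)
    omega

/-- one block with one vertex -/
theorem NN_toggle {ω : ℕ} (v₀ : V) (hw0 : w v₀ = 1) (hw : ∀ v, v ≠ v₀ → 2 ≤ w v)
    (hV : 2 ≤ Fintype.card V) (h0 : ∀ F ∈ 𝓕, ¬ F.2.Colorable ω)
    (h1 : ∃ F ∈ 𝓕, F.2.Colorable (ω + 1)) (hj : ∑ v, w v = ω + 2) : NN 2 (Kt 𝓕 w) = 0 := by
  classical
  have hw1 : ∀ v, 1 ≤ w v := by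
    intro v
    by_cases h : v = v₀
    · rw [h, hw0]
    · exact le_trans (by norm_num) (hw v h)
  have key : ∀ (G : SimpleGraph V), Bad (Kt 𝓕 w) G ↔
      ∀ a b, a ≠ v₀ → b ≠ v₀ → a ≠ b → G.Adj a b := by
    intro G
    constructor
    · intro hb a b ha hb' hab
      by_contra hn
      have hh : ∀ a b, a ≠ v₀ → b ≠ v₀ → a ≠ b → ¬ G.Adj a b → w b ≤ w a → False := by
        intro a b ha hb' hab hn hle
        obtain ⟨F, hF, hc⟩ := bad_nonadj hw1 hb hab hn hle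
        refine h0 F hF (hc.mono ?_)
        have h2 := Finset.add_sum_erase univ w (mem_univ b)
        have h3 := hw b hb'
        omega
      rcases le_total (w b) (w a) with h | h
      · exact hh a b ha hb' hab hn h
      · exact hh b a hb' ha hab.symm (fun h' => hn h'.symm) h
    · intro h
      obtain ⟨F, hF, hc⟩ := h1
      refine bad_of_complete hw1 (univ.erase v₀) (fun a ha b hb hab => ?_) hF (hc.mono ?_)
      · exact h a b (Finset.ne_of_mem_erase ha) (Finset.ne_of_mem_erase hb) hab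
      · have h2 := Finset.add_sum_erase univ w (mem_univ v₀)
        omega
  obtain ⟨u₀, hu₀⟩ : ∃ u₀, u₀ ≠ v₀ := by
    obtain ⟨a, b, hab⟩ := Fintype.one_lt_card_iff.1 (lt_of_lt_of_le (by norm_num) hV)
    by_cases h : a = v₀
    · exact ⟨b, fun h' => hab (h.trans h'.symm)⟩
    · exact ⟨a, h⟩
  have hnd : ¬ (s(v₀, u₀) : Sym2 V).IsDiag := fun h => hu₀ (Sym2.mk_isDiag_iff.1 h).symm
  set e₀ : EV V := ⟨s(v₀, u₀), hnd⟩ with he₀
  have hadj : ∀ (S : Finset (EV V)) (a b : V), a ≠ v₀ → b ≠ v₀ →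
      ((toG (symmDiff S {e₀})).Adj a b ↔ (toG S).Adj a b) := by
    intro S a b ha hb
    rw [toG_adj, toG_adj]
    refine exists_congr fun h => ?_
    rw [Finset.mem_symmDiff, Finset.mem_singleton]
    have hne : (⟨s(a, b), h⟩ : EV V) ≠ e₀ := by
      intro h'
      have h2 := congrArg Subtype.val h'
      change s(a, b) = s(v₀, u₀) at h2
      rcases Sym2.eq_iff.1 h2 with ⟨h3, _⟩ | ⟨_, h3⟩
      · exact ha h3
      · exact hb h3
    constructor
    · rintro (⟨h2, _⟩ | ⟨h2, _⟩)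
      · exact h2
      · exact absurd h2 hne
    · exact fun h2 => Or.inl ⟨h2, hne⟩
  have hbad : ∀ S : Finset (EV V), Bad (Kt 𝓕 w) (toG (symmDiff S {e₀})) ↔
      Bad (Kt 𝓕 w) (toG S) := by
    intro S
    rw [key, key]
    constructor
    · exact fun h a b ha hb hab => (hadj S a b ha hb).1 (h a b ha hb hab)
    · exact fun h a b ha hb hab => (hadj S a b ha hb).2 (h a b ha hb hab)
  unfold NN
  refine Finset.sum_involution (fun S _ => symmDiff S {e₀}) ?_ ?_ ?_ ?_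
  · intro S _
    rw [neg_one_pow_two, neg_one_pow_two, mul_one, mul_one,
      ind_congr 2 (hbad S)]
    exact CharTwo.add_self_eq_zero _
  · intro S _ _ h
    have h2 : symmDiff S (symmDiff S {e₀}) = {e₀} := symmDiff_symmDiff_cancel_left S {e₀}
    rw [h, symmDiff_self] at h2
    exact Finset.singleton_ne_empty e₀ h2.symm
  · intro S _
    exact mem_univ _
  · intro S _
    rw [symmDiff_symmDiff_cancel_right]

end

section vals

variable {q : ℕ}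

/-- the weights of `a` single vertices, `b` pairs and a block with `q` vertices -/
def wt (a b q : ℕ) : Fin a ⊕ (Fin b ⊕ Unit) → ℕ :=
  Sum.elim (fun _ => 1) (Sum.elim (fun _ => 2) (fun _ => q))

theorem sum_wt (a b q : ℕ) : ∑ v, wt a b q v = a + 2 * b + q := by
  rw [Fintype.sum_sum_type, Fintype.sum_sum_type]
  simp only [wt, Sum.elim_inl, Sum.elim_inr, sum_const, card_univ, Fintype.card_fin, smul_eq_mul,
    mul_one, Fintype.card_unit, one_mul]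
  ring

theorem fL_wt (a b q : ℕ) :
    fL 𝓕 (Xc 𝓕 0 ^ a * Xc 𝓕 1 ^ b * Kc 𝓕 q) = NN 2 (Kt 𝓕 (wt a b q)) := by
  rw [← Lb_prod, fL_apply]
  congr 1
  rw [Fintype.prod_sum_type, Fintype.prod_sum_type]
  simp only [Kt, wt, Sum.elim_inl, Sum.elim_inr, prod_const, card_univ, Fintype.card_fin,
    Fintype.card_unit, pow_one, J_one]
  rw [mul_assoc]
  rfl

theorem card_wt (a b : ℕ) : Fintype.card (Fin a ⊕ (Fin b ⊕ Unit)) = a + b + 1 := by
  rw [Fintype.card_sum, Fintype.card_sum, Fintype.card_fin, Fintype.card_fin, Fintype.card_unit]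
  ring

variable {ω : ℕ} (hq : 2 ≤ q) (h0 : ∀ F ∈ 𝓕, ¬ F.2.Colorable ω)
  (h1 : ∃ F ∈ 𝓕, F.2.Colorable (ω + 1))

include hq h0

theorem val_le {a b : ℕ} (hab : 1 ≤ a + b) (h : a + 2 * b + q ≤ ω) :
    fL 𝓕 (Xc 𝓕 0 ^ a * Xc 𝓕 1 ^ b * Kc 𝓕 q) = 0 := by
  rw [fL_wt]
  refine NN_le (ω := ω) ?_ (by rw [card_wt]; omega) h0 (by rw [sum_wt]; exact h)
  rintro (_ | _ | _)
  · exact le_rfl
  · exact (by norm_num : (1:ℕ) ≤ 2)
  · exact le_trans (by norm_num) hq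

include h1

theorem val_eq {a b : ℕ} (hab : 1 ≤ a + b) (h : a + 2 * b + q = ω + 1) :
    fL 𝓕 (Xc 𝓕 0 ^ a * Xc 𝓕 1 ^ b * Kc 𝓕 q) = 1 := by
  rw [fL_wt]
  refine NN_eq_one (ω := ω) (m := 1) le_rfl ?_ (by rw [card_wt]; omega) h0 h1
    (by rw [sum_wt]; exact h)
  rintro (_ | _ | _)
  · exact le_rfl
  · exact (by norm_num : (1:ℕ) ≤ 2)
  · exact le_trans (by norm_num) hq

theorem val_zero {b : ℕ} (hb : 1 ≤ b) (h : 2 * b + q = ω + 2) :
    fL 𝓕 (Xc 𝓕 0 ^ 0 * Xc 𝓕 1 ^ b * Kc 𝓕 q) = 1 := by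
  rw [fL_wt]
  refine NN_eq_one (ω := ω) (m := 2) (by norm_num) ?_ (by rw [card_wt]; omega) h0 h1
    (by rw [sum_wt]; omega)
  rintro (i | _ | _)
  · exact i.elim0
  · exact le_rfl
  · exact hq

theorem val_one {b : ℕ} (h : 1 + 2 * b + q = ω + 2) :
    fL 𝓕 (Xc 𝓕 0 ^ 1 * Xc 𝓕 1 ^ b * Kc 𝓕 q) = 0 := by
  rw [fL_wt]
  refine NN_toggle (ω := ω) (Sum.inl 0) rfl ?_ (by rw [card_wt]; omega) h0 h1
    (by rw [sum_wt]; exact h)
  rintro (i | _ | _) hi
  · exact absurd (by rw [Subsingleton.elim i 0]) hi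
  · exact le_rfl
  · exact hq

theorem val_even [CharP (AA 𝓕 2) 2] (m : ℕ) : ∀ b : ℕ, 1 ≤ m + b → 2 * m + 2 * b + q = ω + 2 →
    fL 𝓕 (Xc 𝓕 0 ^ (2 * m) * Xc 𝓕 1 ^ b * Kc 𝓕 q) = 1 + m := by
  induction m with
  | zero =>
    intro b hb h
    rw [mul_zero, val_zero hq h0 h1 (by omega) (by omega)]
    simp
  | succ m ih =>
    intro b hb h
    have e : Xc 𝓕 0 ^ (2 * (m + 1)) * Xc 𝓕 1 ^ b * Kc 𝓕 q =
        Xc 𝓕 0 ^ (2 * m + 1) * Xc 𝓕 1 ^ b * Kc 𝓕 q +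
        Xc 𝓕 0 ^ (2 * m) * Xc 𝓕 1 ^ (b + 1) * Kc 𝓕 q := by
      have h2 := Xc_sq (𝓕 := 𝓕) 0
      rw [zero_add] at h2
      have e1 : Xc 𝓕 0 ^ (2 * (m + 1)) = Xc 𝓕 0 ^ (2 * m) * Xc 𝓕 0 ^ 2 := by ring
      rw [e1, h2]
      ring
    rw [e, map_add, val_eq hq h0 h1 (by omega) (by omega), ih (b + 1) (by omega) (by omega)]
    push_cast
    ring

theorem val_odd [CharP (AA 𝓕 2) 2] (m : ℕ) : ∀ b : ℕ, 2 * m + 1 + 2 * b + q = ω + 2 →
    fL 𝓕 (Xc 𝓕 0 ^ (2 * m + 1) * Xc 𝓕 1 ^ b * Kc 𝓕 q) = m := by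
  induction m with
  | zero =>
    intro b h
    have := val_one hq h0 h1 (b := b) (by omega)
    simpa using this
  | succ m ih =>
    intro b h
    have e : Xc 𝓕 0 ^ (2 * (m + 1) + 1) * Xc 𝓕 1 ^ b * Kc 𝓕 q =
        Xc 𝓕 0 ^ (2 * m + 2) * Xc 𝓕 1 ^ b * Kc 𝓕 q +
        Xc 𝓕 0 ^ (2 * m + 1) * Xc 𝓕 1 ^ (b + 1) * Kc 𝓕 q := by
      have h2 := Xc_sq (𝓕 := 𝓕) 0
      rw [zero_add] at h2
      have e1 : Xc 𝓕 0 ^ (2 * (m + 1) + 1) = Xc 𝓕 0 ^ (2 * m + 1) * Xc 𝓕 0 ^ 2 := by ring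
      rw [e1, h2]
      ring
    rw [e, map_add, val_eq hq h0 h1 (by omega) (by omega), ih (b + 1) (by omega)]
    push_cast
    ring

/-- the value that is used for the contradiction -/
theorem val_main [CharP (AA 𝓕 2) 2] {e : ℕ} (he : 1 ≤ e) (h : e + q = ω + 2)
    (h4 : e % 4 = 0 ∨ e % 4 = 3) : fL 𝓕 (Xc 𝓕 0 ^ e * Kc 𝓕 q) = 1 := by
  have h2 : (2 : ZMod 2) = 0 := by decide
  rcases h4 with h4 | h4
  · obtain ⟨m, rfl⟩ : ∃ m, e = 2 * (2 * m) := ⟨e / 4, by omega⟩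
    have := val_even hq h0 h1 (2 * m) 0 (by omega) (by omega)
    rw [pow_zero, mul_one] at this
    rw [this]
    push_cast
    rw [h2, zero_mul, add_zero]
  · obtain ⟨m, rfl⟩ : ∃ m, e = 2 * (2 * m + 1) + 1 := ⟨e / 4, by omega⟩
    have := val_odd hq h0 h1 (2 * m + 1) 0 (by omega)
    rw [pow_zero, mul_one] at this
    rw [this]
    push_cast
    rw [h2, zero_mul, zero_add]

end vals

end Pool.Agent.H636.HC
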